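import Mathlib
import Pool.Agent.AAR.Inf

/-!
# Rectangles with exact side ratio `a : b` in planar lattice sets, for almost all `b`

For `A ⊆ ℕ × ℕ` let `S(A) = ∑_{(x,y) ∈ A} 1/(x²+y²)`.  If `S(A) = ∞`, then for every `a ≥ 1` the set
`A` contains the vertices of axis-parallel rectangles with sides exactly `a d` and `b d`, with
arbitrarily large integers `d`, for almost all `b` (in the sense of upper density; `a = b = 1` would
be an axis-aligned square).  There is a finite form for sets of density `(log N)^(-6/5)` in `[N]²`.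
-/

namespace Pool.Agent.Results.MP_27274a_co.AlmostAllRatios

/-- `A` contains the vertices of an axis-parallel rectangle with sides exactly `a d` and `b d` for
some positive integer `d ≥ d₀`. -/
def Ratio (A : Set (ℕ × ℕ)) (a b : ℕ) (d₀ : ℝ) : Prop :=
  ∃ x y d : ℕ, 1 ≤ d ∧ d₀ ≤ d ∧ (x, y) ∈ A ∧ (x + a * d, y) ∈ A ∧ (x, y + b * d) ∈ A ∧
    (x + a * d, y + b * d) ∈ A

/-- the number of `b ∈ {1,…,K}` with `Ratio A a b d₀` -/
noncomputable def good (A : Set (ℕ × ℕ)) (a K : ℕ) (d₀ : ℝ) : ℕ :=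
  {b : ℕ | 1 ≤ b ∧ b ≤ K ∧ Ratio A a b d₀}.ncard

/-- for all `K ∈ [N^κ, N^(1/2)]` and all `1 ≤ a ≤ N^(1/4)`, for all but at most `ε K` of the
`b ∈ {1,…,K}` the set `A` contains the vertices of a rectangle with sides exactly `a d` and `b d`
for some `d ≥ N^(κ/16)` -/
def AlmostAll (A : Set (ℕ × ℕ)) (κ ε : ℝ) (N : ℕ) : Prop :=
  ∀ a K : ℕ, 1 ≤ a → (a : ℝ) ≤ (N : ℝ) ^ ((1 : ℝ) / 4) → (N : ℝ) ^ κ ≤ K →
    (K : ℝ) ≤ (N : ℝ) ^ ((1 : ℝ) / 2) → (1 - ε) * K ≤ good A a K ((N : ℝ) ^ (κ / 16))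

open Classical in
private theorem good_eq (A : Set (ℕ × ℕ)) (a K : ℕ) (d₀ : ℝ) :
    good A a K d₀ = ((Finset.Icc 1 K).filter (fun b => AAR.Ratio A a b d₀)).card := by
  rw [good, ← Set.ncard_coe_finset]
  congr 1
  ext b
  simp only [Finset.coe_filter, Finset.mem_Icc, Set.mem_ofPred_eq, and_assoc]
  rfl

/-- **Theorem.**
(1) Let `A` be a set of pairs of positive integers with `S(A) = ∞`.  For all `ε > 0` and all `d₀`,
`K₀` there is `K ≥ K₀` such that for every `a ∈ {1,…,K}` and all but at most `ε K` of the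
`b ∈ {1,…,K}` the set `A` contains the vertices of a rectangle with sides exactly `a d` and `b d` for
some `d ≥ d₀`.  For all `0 < κ ≤ 1/2`, `ε > 0` there are arbitrarily large `N` with
`AlmostAll A κ ε N`.
(2) For all `0 < κ ≤ 1/2`, `ε > 0`, all large `N` and all `A ⊆ [N]²` with
`|A| ≥ N² (log N)^(-6/5)`: `AlmostAll A κ ε N`. -/
theorem result :
    (∀ A : Set (ℕ × ℕ), (∀ p ∈ A, 0 < p.1 ∧ 0 < p.2) →
      ¬ Summable (fun p : A => 1 / ((p.1.1 : ℝ) ^ 2 + (p.1.2 : ℝ) ^ 2)) →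
        (∀ ε : ℝ, 0 < ε → ∀ d₀ K₀ : ℕ, ∃ K : ℕ, K₀ ≤ K ∧ ∀ a : ℕ, 1 ≤ a → a ≤ K →
          (1 - ε) * K ≤ good A a K d₀) ∧
        (∀ κ ε : ℝ, 0 < κ → κ ≤ 1 / 2 → 0 < ε → ∀ N₀ : ℕ, ∃ N : ℕ, N₀ ≤ N ∧
          AlmostAll A κ ε N)) ∧
    (∀ κ ε : ℝ, 0 < κ → κ ≤ 1 / 2 → 0 < ε → ∃ N₀ : ℕ, ∀ N : ℕ, N₀ ≤ N →
      ∀ A : Finset (ℕ × ℕ), A ⊆ Finset.Icc 1 N ×ˢ Finset.Icc 1 N →
        (N : ℝ) ^ 2 * Real.log N ^ (-(6 / 5 : ℝ)) ≤ A.card →
          AlmostAll (A : Set (ℕ × ℕ)) κ ε N) := by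
  classical
  refine ⟨fun A hA hs => ⟨?_, ?_⟩, ?_⟩
  · intro ε hε d₀ K₀
    obtain ⟨K, hK, h⟩ := AAR.inf2 A hA hs ε hε d₀ K₀
    refine ⟨K, hK, fun a ha haK => ?_⟩
    rw [good_eq]
    exact h a ha haK
  · intro κ ε hκ hκ1 hε N₀
    obtain ⟨N, hN, h⟩ := AAR.inf1 A hA hs κ ε hκ hκ1 hε N₀
    refine ⟨N, hN, fun a K ha haN hK hKN => ?_⟩
    rw [good_eq]
    exact h a K ha haN hK hKN
  · intro κ ε hκ hκ1 hε
    obtain ⟨N₀, h⟩ := AAR.finite_thm κ ε hκ hκ1 hε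
    refine ⟨N₀, fun N hN A hA hc a K ha haN hK hKN => ?_⟩
    rw [good_eq]
    exact h N hN A hA hc a K ha haN hK hKN

end Pool.Agent.Results.MP_27274a_co.AlmostAllRatios
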