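import Mathlib
import Pool.Agent.AES.Asm

/-!
# Homothetic copies of almost every grid in planar lattice sets with divergent sum

For `A ⊆ ℕ × ℕ` let `S(A) = ∑_{(x,y) ∈ A} 1/(x²+y²)`.  If `S(A) = ∞`, then for almost every
`lam > 0` the set `A` contains the vertices of rectangles with arbitrarily large sides `d` and `e`,
`|e - lam d| ≤ ε`, and for every `n` and almost every `(u, v) ∈ ℝⁿ × ℝⁿ` it contains, up to the
absolute error `ε`, homothetic copies of the grid `{u_i} × {v_j}`.  Density `exp(- c √(log N))` in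
infinitely many squares `[N]²` suffices, with a quantitative form.
-/

open MeasureTheory

namespace Pool.Agent.Results.MP_27274a_co.AlmostEveryShape

/-- `A` contains a full `n × n` grid `{x_i} × {y_j}` at distance at most `ε` in each coordinate from
the homothetic copy `(s,t) + d ({u_i} × {v_j})`, for some `d ≥ d₀` and some real `s, t`. -/
def HasCopy (A : Set (ℕ × ℕ)) (ε d₀ : ℝ) {n : ℕ} (u v : Fin n → ℝ) : Prop :=
  ∃ d s t : ℝ, d₀ ≤ d ∧ ∃ x y : Fin n → ℕ, (∀ i j, (x i, y j) ∈ A) ∧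
    (∀ i, |(x i : ℝ) - (s + d * u i)| ≤ ε) ∧ (∀ j, |(y j : ℝ) - (t + d * v j)| ≤ ε)

/-- `|A ∩ [N]²| ≥ N² exp(- c √(log N))` for infinitely many `N` -/
def DenseOften (A : Set (ℕ × ℕ)) (c : ℝ) : Prop :=
  ∀ N₀ : ℕ, ∃ N : ℕ, N₀ ≤ N ∧ (N : ℝ) ^ 2 * Real.exp (-(c * Real.sqrt (Real.log N))) ≤
    ((A ∩ Set.Icc 1 N ×ˢ Set.Icc 1 N).ncard : ℝ)

/-- for almost every `lam > 0` and all `ε`, `A` contains the vertices of rectangles with
arbitrarily large sides `d` and `e`, `|e - lam d| ≤ ε` -/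
def Rectangles (A : Set (ℕ × ℕ)) : Prop :=
  ∀ᵐ lam : ℝ, 0 < lam → ∀ ε : ℝ, 0 < ε → ∀ d₀ : ℕ, ∃ x y d e : ℕ, d₀ ≤ d ∧
    |(e : ℝ) - lam * d| ≤ ε ∧ (x, y) ∈ A ∧ (x + d, y) ∈ A ∧ (x, y + e) ∈ A ∧ (x + d, y + e) ∈ A

/-- for almost every `(u,v) ∈ ℝⁿ × ℝⁿ` and all `ε`, `A` contains copies of `{u_i} × {v_j}` with
error `ε` and arbitrarily large dilation -/
def Grids (A : Set (ℕ × ℕ)) (n : ℕ) : Prop :=
  ∀ᵐ p : (Fin n → ℝ) × (Fin n → ℝ), ∀ ε : ℝ, 0 < ε → ∀ d₀ : ℝ, HasCopy A ε d₀ p.1 p.2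

/-- **Theorem.**
(1) If `S(A) = ∞` then `Rectangles A` and `Grids A n` for all `n ≥ 1`.
(2) For some `c > 0` density `exp(- c √(log N))` in infinitely many `[N]²` suffices for `Rectangles A`.
(3) For every `n ≥ 1` there are `c, c', C > 0` such that the same density suffices for `Grids A n`,
and for all large `N`, all `A ⊆ [N]²` with `|A| ≥ N² exp(- c √(log N))` and all `0 < ε ≤ 1` the set
of `(u,v) ∈ [0,1]ⁿ × [0,1]ⁿ` without copy of dilation `≥ N^(1/3)` and error `ε` in `A` has (outer)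
measure at most `C ε^(-4n) exp(- c' √(log N))`. -/
theorem result :
    (∀ A : Set (ℕ × ℕ), (∀ p ∈ A, 0 < p.1 ∧ 0 < p.2) →
      ¬ Summable (fun p : A => 1 / ((p.1.1 : ℝ) ^ 2 + (p.1.2 : ℝ) ^ 2)) →
        Rectangles A ∧ ∀ n : ℕ, 1 ≤ n → Grids A n) ∧
    (∃ c : ℝ, 0 < c ∧ ∀ A : Set (ℕ × ℕ), DenseOften A c → Rectangles A) ∧
    (∀ n : ℕ, 1 ≤ n → ∃ c c' C : ℝ, 0 < c ∧ 0 < c' ∧ 0 < C ∧
      (∀ A : Set (ℕ × ℕ), DenseOften A c → Grids A n) ∧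
      ∃ N₀ : ℕ, ∀ N : ℕ, N₀ ≤ N → ∀ A : Finset (ℕ × ℕ), A ⊆ Finset.Icc 1 N ×ˢ Finset.Icc 1 N →
        (N : ℝ) ^ 2 * Real.exp (-(c * Real.sqrt (Real.log N))) ≤ A.card →
          ∀ ε : ℝ, 0 < ε → ε ≤ 1 →
            volume {p : (Fin n → ℝ) × (Fin n → ℝ) | (∀ i, 0 ≤ p.1 i ∧ p.1 i ≤ 1) ∧
              (∀ j, 0 ≤ p.2 j ∧ p.2 j ≤ 1) ∧
              ¬ HasCopy (A : Set (ℕ × ℕ)) ε ((N : ℝ) ^ ((1 : ℝ) / 3)) p.1 p.2} ≤
              ENNReal.ofReal (C * (1 / ε) ^ (4 * n) *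
                Real.exp (-(c' * Real.sqrt (Real.log N))))) := by
  refine ⟨fun A hA hs => AES.main_sum A hA hs, AES.main_rect, ?_⟩
  intro n hn
  obtain ⟨c, c', C, hc, hc', hC, ⟨N₀, h⟩, hG⟩ := AES.main n hn
  refine ⟨c, c', C, hc, hc', hC, hG, N₀, ?_⟩
  intro N hN A hA hcard ε hε hε1
  refine le_trans (le_of_eq ?_) (h N hN A hA hcard ε hε hε1)
  have hmp := MeasureTheory.volume_measurePreserving_sumPiEquivProdPi (fun _ : Fin n ⊕ Fin n => ℝ)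
  rw [← hmp.measure_preimage_equiv]
  congr 1
  ext p
  simp only [Set.mem_preimage, Set.mem_setOf_eq, AES.NoCopy, Set.mem_Icc, Pi.le_def,
    Pi.zero_apply, Pi.one_apply, Sum.forall]
  constructor
  · rintro ⟨h1, h2, h3⟩
    exact ⟨⟨⟨fun i => (h1 i).1, fun j => (h2 j).1⟩, ⟨fun i => (h1 i).2, fun j => (h2 j).2⟩⟩, h3⟩
  · rintro ⟨⟨⟨h1, h2⟩, ⟨h3, h4⟩⟩, h5⟩
    exact ⟨fun i => ⟨h1 i, h3 i⟩, fun j => ⟨h2 j, h4 j⟩, h5⟩

end Pool.Agent.Results.MP_27274a_co.AlmostEveryShape
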