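import Mathlib
import Pool.Agent.Helper52.NG.Unif

/-!
# Grids in planar lattice sets that are very close to homothetic images of `[m]²`

For `A ⊆ ℕ × ℕ` let `S(A) = ∑_{(x,y) ∈ A} 1/(x²+y²)`.  If `S(A) = ∞`, then `A` contains, for
arbitrarily large `N` and a suitable `d ≤ N ≤ d³`, a full `m × m` grid `{x_a} × {y_b}` in `[N]²`
with `x_a`, `y_b` within `C d exp(- c log N / log log N)` of arithmetic progressions with
difference `d` (the case `f = 1` of the theorem).  With other weights `f` the theorem applies to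
sparser sets, up to a power saving `f(n) = n^{2η}`.
-/

namespace Pool.Agent.Results.MP_27274a_co.NearGrids

/-- `A` contains a full `m × m` grid `{x_0,…,x_{m-1}} × {y_0,…,y_{m-1}}` such that
`|x_a - (s + a d)| ≤ ρ` and `|y_b - (t + b d)| ≤ ρ` for all `a, b` (with some real `s, t`): each
point of the grid has sup-norm distance at most `ρ` from the corresponding point of the homothetic
image `d {0,…,m-1}² + (s,t)`. -/
def HasNearGrid (A : Set (ℕ × ℕ)) (m : ℕ) (d ρ : ℝ) : Prop :=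
  ∃ (x y : Fin m → ℕ) (s t : ℝ), (∀ a b, (x a, y b) ∈ A) ∧
    (∀ a : Fin m, |(x a : ℝ) - (s + (a : ℕ) * d)| ≤ ρ) ∧
    (∀ b : Fin m, |(y b : ℝ) - (t + (b : ℕ) * d)| ≤ ρ)

/-- **Theorem.**  For every `m ≥ 2` there are `C, c > 0` such that for all sets `A` of pairs of
positive integers and all nondecreasing `f : ℕ → [1,∞)` with
`∑_{(x,y) ∈ A} f(max(x,y))/(x²+y²) = ∞` there are arbitrarily large `N` and `d` with
`d ≤ N ≤ d³` such that `A ∩ [N]²` contains a full `m × m` grid at distance at most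
`C d exp(- c log N / log (f(N) log N))` from a homothetic image of `[m]²` with mesh `d`. -/
theorem result (m : ℕ) (hm : 2 ≤ m) : ∃ C c : ℝ, 0 < C ∧ 0 < c ∧
    ∀ (A : Set (ℕ × ℕ)) (f : ℕ → ℝ), (∀ p ∈ A, 0 < p.1 ∧ 0 < p.2) → Monotone f →
      (∀ n, 1 ≤ f n) →
      ¬ Summable (fun p : A => f (max p.1.1 p.1.2) / ((p.1.1 : ℝ) ^ 2 + (p.1.2 : ℝ) ^ 2)) →
        ∀ D : ℕ, ∃ N d : ℕ, D ≤ N ∧ N ≤ d ^ 3 ∧ d ≤ N ∧
          HasNearGrid {z | z ∈ A ∧ z.1 ≤ N ∧ z.2 ≤ N} m d
            (C * d * Real.exp (-(c * Real.log N / Real.log (f N * Real.log N)))) :=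
  Helper52.NG.unif m (by omega)

end Pool.Agent.Results.MP_27274a_co.NearGrids
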