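import Mathlib
import Pool.Agent.Helper52.VC.Inf

/-!
# Exact squares in planar lattice sets of small Vapnik-Chervonenkis dimension

For `A ⊆ ℕ × ℕ` let `D(N)` be the VC dimension of the family of columns
`{y ≤ N : (x,y) ∈ A}`, `x ≤ N`, of `A ∩ [N]²` (always `D(N) ≤ log₂ N`).  If
`∑_{(x,y) ∈ A} 1/(x²+y²) = ∞` and `D(N) + 1 < (1/64) log N / log log N` for all large `N`, then `A`
contains the four vertices of an axis-aligned square (the case `f = 1` of the theorem).  The weight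
`f` allows sparser sets, up to a power saving when `D(N)` is bounded.
-/

namespace Pool.Agent.Results.MP_27274a_co.SmallVCDimension

open Finset

open Classical in
/-- the family of the columns `{y ∈ [N] : (x,y) ∈ A}`, `x ∈ [N]`, of `A ∩ [N]²` -/
noncomputable def columns (A : Set (ℕ × ℕ)) (N : ℕ) : Finset (Finset ℕ) :=
  (Icc 1 N).image (fun x => (Icc 1 N).filter (fun y => (x, y) ∈ A))

/-- **Theorem.**  Let `A` be a set of pairs of positive integers and `f : ℕ → [1,∞)`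
nondecreasing with `∑_{(x,y) ∈ A} f(max(x,y))/(x²+y²) = ∞`.  If the VC dimension of the family of
columns of `A ∩ [N]²` is smaller than `(1/64) log N / log (f(N) log N) - 1` for all large `N`, then
`A` contains the four vertices of an axis-aligned square. -/
theorem result (A : Set (ℕ × ℕ)) (f : ℕ → ℝ) (hA : ∀ p ∈ A, 0 < p.1 ∧ 0 < p.2)
    (hf : Monotone f) (hf1 : ∀ n, 1 ≤ f n)
    (hsum : ¬ Summable (fun p : A => f (max p.1.1 p.1.2) / ((p.1.1 : ℝ) ^ 2 + (p.1.2 : ℝ) ^ 2)))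
    (hvc : ∃ N₀ : ℕ, ∀ N : ℕ, N₀ ≤ N →
      ((columns A N).vcDim : ℝ) + 1 < 1 / 64 * (Real.log N / Real.log (f N * Real.log N))) :
    ∃ x y d : ℕ, 0 < d ∧ (x, y) ∈ A ∧ (x + d, y) ∈ A ∧ (x, y + d) ∈ A ∧ (x + d, y + d) ∈ A := by
  by_contra hcon
  push Not at hcon
  obtain ⟨N₀, hN₀⟩ := hvc
  obtain ⟨N, hN, h⟩ := Helper52.VC.inf_vc A f hA hf hf1 hsum
    (fun x y d hd h1 h2 h3 => hcon x y d hd h1 h2 h3) N₀
  exact absurd (hN₀ N hN) (not_lt.2 h)

end Pool.Agent.Results.MP_27274a_co.SmallVCDimension
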